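import Pool.Agent.V1148.AF13

/-!
# Pole orders of the coefficients of the associated form

Every coefficient `μ_i` of the associated form has a pole of order exactly one along the
discriminant hypersurface.
-/

set_option autoImplicit false

open MvPolynomial Pool.V1148.AF

namespace Pool.V11205.AExp

variable {n d : ℕ}

/-- `c` is the number `μ_i(f)`: the monomial `z^i` is congruent to `c` times the Hessian
determinant of `f` modulo the partial derivatives of `f`. -/
def IsMu {n : ℕ} (f : MvPolynomial (Fin n) ℂ) (i : Fin n →₀ ℕ) (c : ℂ) : Prop :=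
  monomial i (1 : ℂ) - C c * hess f ∈ jacobianIdeal f

/-- `Δ ^ k μ_i` is a polynomial function on the space of forms (`k` may be negative): some
polynomial in the coefficients takes the value `Δ(f) ^ k μ_i(f)` at every nondegenerate `f`. -/
def PolyPow (n d : ℕ) (Δ : MvPolynomial (Mon n d) ℂ) (i : Fin n →₀ ℕ) (k : ℤ) : Prop :=
  ∃ P : MvPolynomial (Mon n d) ℂ, ∀ a : Mon n d → ℂ, Nondeg (frm a) →
    ∀ c : ℂ, IsMu (frm a) i c → eval a P = eval a Δ ^ k * c

theorem isMu_of_soc {f : MvPolynomial (Fin n) ℂ} {μ : MvPolynomial (Fin n) ℂ →ₗ[ℂ] ℂ}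
    (hμ : Soc d f μ) (i : Mon n (n * (d - 2))) (c : ℂ) :
    IsMu f i.1 c ↔ c = μ (monomial i.1 1) := by
  constructor
  · intro h
    have h1 := hμ.kills _ h
    rw [map_sub, ← smul_eq_C_mul, map_smul, hμ.hs, smul_eq_mul, mul_one, sub_eq_zero] at h1
    exact h1.symm
  · rintro rfl
    exact hμ.red _ (isHomogeneous_monomial _ i.2)

theorem existsUnique_mu (hd : 2 ≤ d) (a : Mon n d → ℂ) (ha : Nondeg (frm a))
    (i : Mon n (n * (d - 2))) : ∃! c, IsMu (frm a) i.1 c := by
  obtain ⟨μ, hμ⟩ := exists_soc hd (frm_isHomogeneous a) ha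
  exact ⟨μ (monomial i.1 1), (isMu_of_soc hμ i _).2 rfl, fun c hc => (isMu_of_soc hμ i c).1 hc⟩

/-- `Δ μ_i` is a polynomial function. -/
theorem polyPow_one (hn : 2 ≤ n) (hd : 3 ≤ d) (Δ : MvPolynomial (Mon n d) ℂ)
    (hΔ : IsDiscriminant n d Δ) (i : Mon n (n * (d - 2))) : PolyPow n d Δ i.1 1 := by
  obtain ⟨m, rfl⟩ : ∃ m, n = m + 1 := ⟨n - 1, by omega⟩
  obtain ⟨Ψ, hΨ⟩ := extends_one hd (by omega) Δ hΔ
  have hN : (Nat.multinomial Finset.univ (i.1 : Fin (m + 1) → ℕ) : ℂ) ≠ 0 := by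
    exact_mod_cast (Nat.multinomial_pos Finset.univ _).ne'
  refine ⟨C ((Nat.multinomial Finset.univ (i.1 : Fin (m + 1) → ℕ) : ℂ)⁻¹) * Ψ i, ?_⟩
  intro a ha c hc
  obtain ⟨μ, hμ⟩ := exists_soc (by omega) (frm_isHomogeneous a) ha
  have h1 := hΨ a ha _ ((assoc_iff hμ _).2 rfl)
  have h2 := congrArg (coeff i.1) h1
  rw [coeff_frm, coeff_C_mul, coeff_frm, pow_one] at h2
  rw [eval_mul, eval_C, h2, (isMu_of_soc hμ i c).1 hc, asc, zpow_one]
  field_simp

/-- Scaling of forms. -/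
theorem frm_smul (t : ℂ) (a : Mon n d → ℂ) : frm (t • a) = C t * frm a := by
  unfold frm
  rw [Finset.mul_sum]
  apply Finset.sum_congr rfl
  intro m _
  rw [C_mul_monomial]
  rfl

theorem nondeg_smul {t : ℂ} (ht : t ≠ 0) {f : MvPolynomial (Fin n) ℂ} (hf : Nondeg f) :
    Nondeg (C t * f) := by
  intro z hz
  apply hf
  intro i
  have := hz i
  rw [pderiv_C_mul, eval_mul, eval_C] at this
  exact (mul_eq_zero.1 this).resolve_left ht

theorem hess_smul (t : ℂ) (f : MvPolynomial (Fin n) ℂ) : hess (C t * f) = C (t ^ n) * hess f := by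
  unfold hess
  have h1 : (Matrix.of fun i j => pderiv i (pderiv j (C t * f))) =
      (C t : MvPolynomial (Fin n) ℂ) • (Matrix.of fun i j => pderiv i (pderiv j f)) := by
    ext i j : 2
    rw [Matrix.smul_apply, Matrix.of_apply, Matrix.of_apply, pderiv_C_mul, pderiv_C_mul,
      smul_eq_mul]
  rw [h1, Matrix.det_smul, Fintype.card_fin, C_pow]

theorem jac_smul {t : ℂ} (ht : t ≠ 0) (f : MvPolynomial (Fin n) ℂ) :
    jacobianIdeal (C t * f) = jacobianIdeal f := by
  unfold jacobianIdeal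
  apply le_antisymm
  · rw [Ideal.span_le]
    rintro _ ⟨i, rfl⟩
    simp only [SetLike.mem_coe]
    rw [pderiv_C_mul]
    exact Ideal.mul_mem_left _ _ (Ideal.subset_span ⟨i, rfl⟩)
  · rw [Ideal.span_le]
    rintro _ ⟨i, rfl⟩
    simp only [SetLike.mem_coe]
    have h1 : pderiv i f = C t⁻¹ * pderiv i (C t * f) := by
      rw [pderiv_C_mul, ← mul_assoc, ← C_mul, inv_mul_cancel₀ ht, C_1, one_mul]
    rw [h1]
    exact Ideal.mul_mem_left _ _ (Ideal.subset_span ⟨i, rfl⟩)

theorem isMu_smul {t : ℂ} (ht : t ≠ 0) {f : MvPolynomial (Fin n) ℂ} {i : Fin n →₀ ℕ} {c : ℂ}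
    (h : IsMu f i c) : IsMu (C t * f) i ((t ^ n)⁻¹ * c) := by
  unfold IsMu at *
  rw [jac_smul ht, hess_smul, ← mul_assoc, ← C_mul]
  have h1 : (t ^ n)⁻¹ * c * t ^ n = c := by
    field_simp
  rw [h1]
  exact h

/-- A polynomial that agrees with `μ_i` vanishes at the nondegenerate forms. -/
theorem eq_zero_of_poly (hn : 1 ≤ n) (i : Fin n →₀ ℕ) (Q : MvPolynomial (Mon n d) ℂ)
    (hQ : ∀ a : Mon n d → ℂ, Nondeg (frm a) → ∀ c : ℂ, IsMu (frm a) i c → eval a Q = c)
    (a : Mon n d → ℂ) (ha : Nondeg (frm a)) (c : ℂ) (hc : IsMu (frm a) i c) : c = 0 := by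
  have hcont : Continuous (fun t : ℂ => t ^ n * eval (t • a) Q) := by
    apply (continuous_pow n).mul
    have h1 : Continuous (fun x : Mon n d → ℂ => eval x Q) := MvPolynomial.continuous_eval Q
    exact h1.comp (continuous_id.smul continuous_const)
  have hne : ∀ t : ℂ, t ≠ 0 → t ^ n * eval (t • a) Q = c := by
    intro t ht
    have h2 : Nondeg (frm (t • a)) := by rw [frm_smul]; exact nondeg_smul ht ha
    have h3 : IsMu (frm (t • a)) i ((t ^ n)⁻¹ * c) := by rw [frm_smul]; exact isMu_smul ht hc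
    rw [hQ _ h2 _ h3]
    field_simp
  have h4 : Filter.Tendsto (fun t : ℂ => t ^ n * eval (t • a) Q) (nhdsWithin 0 {0}ᶜ) (nhds 0) := by
    have := hcont.tendsto 0
    simp only [zero_pow (by omega : n ≠ 0), zero_mul] at this
    exact this.mono_left nhdsWithin_le_nhds
  have h5 : Filter.Tendsto (fun t : ℂ => t ^ n * eval (t • a) Q) (nhdsWithin 0 {0}ᶜ) (nhds c) := by
    apply tendsto_const_nhds.congr'
    filter_upwards [self_mem_nhdsWithin] with t ht
    exact (hne t ht).symm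
  exact tendsto_nhds_unique h5 h4

end Pool.V11205.AExp
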