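import Pool.Agent.V11205.AExp.Core

/-!
# No coefficient of the associated form vanishes identically
-/

set_option autoImplicit false

open MvPolynomial Pool.V1148.AF

namespace Pool.V11205.AExp

variable {n d : ℕ}

/-- The linear form `X_k + (X_1 + ... + X_n)` with natural coefficients. -/
noncomputable def lf (n : ℕ) (k : Fin n) : MvPolynomial (Fin n) ℕ := X k + ∑ j, X j

theorem coeff_lf_pos (k j : Fin n) : 0 < coeff (Finsupp.single j 1) (lf n k) := by
  classical
  unfold lf
  rw [coeff_add, coeff_sum]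
  have h1 : 0 < ∑ x : Fin n, coeff (Finsupp.single j 1) (X x : MvPolynomial (Fin n) ℕ) := by
    rw [Finset.sum_eq_single j]
    · rw [coeff_X, if_pos rfl]; exact Nat.one_pos
    · intro b _ hb
      rw [coeff_X, if_neg]
      intro h
      exact hb (Finsupp.single_left_injective (one_ne_zero : (1 : ℕ) ≠ 0) h)
    · intro h
      exact absurd (Finset.mem_univ _) h
  omega

/-- All monomials of degree `T` occur in a product of `T` such forms. -/
theorem coeff_list_pos (L : List (Fin n)) : ∀ m : Fin n →₀ ℕ, m.degree = L.length →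
    0 < coeff m ((L.map (lf n)).prod) := by
  classical
  induction L with
  | nil =>
    intro m hm
    have : m = 0 := by
      rw [List.length_nil] at hm
      exact (Finsupp.degree_eq_zero_iff m).1 hm
    subst this
    simp
  | cons k L ih =>
    intro m hm
    rw [List.length_cons] at hm
    have h1 : ∃ j, m j ≠ 0 := by
      by_contra hcon
      push Not at hcon
      have : m = 0 := Finsupp.ext hcon
      rw [this] at hm
      simp at hm
    obtain ⟨j, hj⟩ := h1
    have h2 : Finsupp.single j 1 + (m - Finsupp.single j 1) = m := by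
      rw [add_tsub_cancel_of_le]
      rw [Finsupp.single_le_iff]
      omega
    have h3 : (m - Finsupp.single j 1).degree = L.length := by
      have := congrArg Finsupp.degree h2
      rw [map_add, Finsupp.degree_single] at this
      omega
    rw [List.map_cons, List.prod_cons, coeff_mul]
    have h4 : (Finsupp.single j 1, m - Finsupp.single j 1) ∈ Finset.HasAntidiagonal.antidiagonal m := by
      rw [Finset.HasAntidiagonal.mem_antidiagonal]; exact h2
    refine lt_of_lt_of_le ?_ (Finset.single_le_sum (f := fun x : (Fin n →₀ ℕ) × (Fin n →₀ ℕ) =>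
      coeff x.1 (lf n k) * coeff x.2 ((L.map (lf n)).prod)) (fun _ _ => Nat.zero_le _) h4)
    exact Nat.mul_pos (coeff_lf_pos k j) (ih _ h3)

/-- The same for powers. -/
theorem coeff_prod_pos (i m : Fin n →₀ ℕ) (h : m.degree = i.degree) :
    0 < coeff m (∏ k, lf n k ^ i k) := by
  classical
  have h1 : ∏ k, lf n k ^ i k =
      (((List.finRange n).flatMap (fun k => List.replicate (i k) k)).map (lf n)).prod := by
    rw [← List.prod_ofFn, List.ofFn_eq_map]
    generalize List.finRange n = L
    induction L with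
    | nil => simp
    | cons k L ih =>
      rw [List.map_cons, List.prod_cons, List.flatMap_cons, List.map_append, List.prod_append, ih,
        List.map_replicate, List.prod_replicate]
  rw [h1]
  apply coeff_list_pos
  rw [h, List.length_flatMap, Finsupp.degree_eq_sum, ← List.sum_ofFn, List.ofFn_eq_map]
  congr 1
  apply List.map_congr_left
  intro k _
  rw [List.length_replicate]

/-- The matrix `1 + J`. -/
def Bm (n : ℕ) : Matrix (Fin n) (Fin n) ℂ := 1 + Matrix.of (fun _ _ => 1)

/-- Its inverse. -/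
noncomputable def Hm (n : ℕ) : Matrix (Fin n) (Fin n) ℂ :=
  1 - ((n : ℂ) + 1)⁻¹ • Matrix.of (fun _ _ => 1)

theorem Hm_mul_Bm : Hm n * Bm n = 1 := by
  have h1 : (Matrix.of (fun _ _ => 1) : Matrix (Fin n) (Fin n) ℂ) * Matrix.of (fun _ _ => 1) =
      (n : ℂ) • Matrix.of (fun _ _ => 1) := by
    ext i j
    simp [Matrix.mul_apply]
  unfold Hm Bm
  rw [sub_mul, one_mul, mul_add, mul_one, Matrix.smul_mul, h1, smul_smul]
  have h2 : ((n : ℂ) + 1) ≠ 0 := by
    exact_mod_cast Nat.succ_ne_zero n
  ext i j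
  simp only [Matrix.sub_apply, Matrix.add_apply, Matrix.smul_apply, Matrix.of_apply, smul_eq_mul]
  field_simp
  ring

theorem Bm_mul_Hm : Bm n * Hm n = 1 := by
  exact mul_eq_one_comm.1 Hm_mul_Bm

theorem sbs_Bm_X (k : Fin n) : sbs (Bm n) (X k) = map (Nat.castRingHom ℂ) (lf n k) := by
  rw [sbs_X]
  unfold lf Bm
  rw [map_add, map_X, map_sum]
  have h1 : ∀ j, C ((1 + Matrix.of (fun _ _ => 1) : Matrix (Fin n) (Fin n) ℂ) k j) * X j =
      (if k = j then X j else 0) + (X j : MvPolynomial (Fin n) ℂ) := by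
    intro j
    rw [Matrix.add_apply, Matrix.of_apply, Matrix.one_apply]
    split_ifs
    · rw [C_add, C_1]; ring
    · rw [zero_add, C_1]; ring
  rw [Finset.sum_congr rfl (fun j _ => h1 j), Finset.sum_add_distrib, Finset.sum_ite_eq,
    if_pos (Finset.mem_univ _)]
  congr 1
  apply Finset.sum_congr rfl
  intro j _
  rw [map_X]

theorem sbs_Bm_monomial (i : Fin n →₀ ℕ) :
    sbs (Bm n) (monomial i 1) = map (Nat.castRingHom ℂ) (∏ k, lf n k ^ i k) := by
  rw [monomial_eq, C_1, one_mul, Finsupp.prod_fintype _ _ (by intro i; simp), map_prod, map_prod]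
  apply Finset.prod_congr rfl
  intro k _
  rw [map_pow, map_pow, sbs_Bm_X]

/-- The sum of the `d`-th powers in other coordinates. -/
noncomputable def ff (n d : ℕ) : MvPolynomial (Fin n) ℂ := sbs (Hm n) (diagF n d (fun _ => 1))

theorem ff_homogeneous : (ff n d).IsHomogeneous d := by
  apply sbs_isHomogeneous
  unfold diagF
  apply IsHomogeneous.sum
  intro i _
  have := (isHomogeneous_C (Fin n) (1 : ℂ)).mul ((isHomogeneous_X ℂ i).pow d)
  simpa using this

theorem ff_nondeg (hd : 2 ≤ d) : Nondeg (ff n d) := by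
  intro z hz
  -- the partial derivatives of the diagonal form vanish at `H z`
  have h1 : ∀ i, eval ((Hm n).mulVec z) (pderiv i (diagF n d (fun _ => (1 : ℂ)))) = 0 := by
    have h2 : ∀ j, ∑ i, Hm n i j * eval ((Hm n).mulVec z) (pderiv i (diagF n d (fun _ => 1))) = 0 := by
      intro j
      have h3 := hz j
      unfold ff at h3
      rw [pderiv_sbs, map_sum] at h3
      rw [← h3]
      apply Finset.sum_congr rfl
      intro i _
      rw [eval_mul, eval_C, eval_sbs]
    set v : Fin n → ℂ := fun i => eval ((Hm n).mulVec z) (pderiv i (diagF n d (fun _ => 1))) with hv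
    have h3 : Matrix.vecMul v (Hm n) = 0 := by
      funext j
      simp only [Matrix.vecMul, dotProduct, Pi.zero_apply]
      rw [← h2 j]
      apply Finset.sum_congr rfl
      intro i _
      ring
    have h4 : v = 0 := by
      have h5 : Matrix.vecMul (Matrix.vecMul v (Hm n)) (Bm n) = v := by
        rw [Matrix.vecMul_vecMul, Hm_mul_Bm, Matrix.vecMul_one]
      rw [← h5, h3, Matrix.zero_vecMul]
    intro i
    exact congrFun h4 i
  have h2 : (Hm n).mulVec z = 0 := by
    funext i
    have h3 := h1 i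
    rw [pderiv_diagF] at h3
    simp only [eval_mul, eval_C, eval_pow, eval_X, mul_one] at h3
    have hd0 : (d : ℂ) ≠ 0 := by exact_mod_cast (by omega : d ≠ 0)
    exact pow_eq_zero_iff (by omega) |>.1 ((mul_eq_zero.1 h3).resolve_left hd0)
  have h3 : (Bm n).mulVec ((Hm n).mulVec z) = z := by
    rw [Matrix.mulVec_mulVec, Bm_mul_Hm, Matrix.one_mulVec]
  rw [← h3, h2, Matrix.mulVec_zero]

theorem sbs_mem_of_mem {p : MvPolynomial (Fin n) ℂ}
    (hp : p ∈ jacobianIdeal (ff n d)) :
    sbs (Bm n) p ∈ Ideal.span (Set.range (fun i : Fin n =>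
      (X i ^ (d - 1) : MvPolynomial (Fin n) ℂ))) := by
  unfold jacobianIdeal at hp
  refine Submodule.span_induction ?_ ?_ ?_ ?_ hp
  · rintro _ ⟨j, rfl⟩
    simp only
    unfold ff
    rw [pderiv_sbs, map_sum]
    apply Ideal.sum_mem
    intro i _
    rw [map_mul, sbs_sbs, Hm_mul_Bm, sbs_one, pderiv_diagF]
    apply Ideal.mul_mem_left
    apply Ideal.mul_mem_left
    exact Ideal.subset_span ⟨i, rfl⟩
  · rw [map_zero]; exact Ideal.zero_mem _
  · intro x y _ _ hx hy
    rw [map_add]; exact Ideal.add_mem _ hx hy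
  · intro a x _ hx
    rw [smul_eq_mul, map_mul]
    exact Ideal.mul_mem_left _ _ hx

/-- No monomial of degree `n (d - 2)` is a combination of the partial derivatives of `ff`. -/
theorem monomial_not_mem (hd : 2 ≤ d) (i : Mon n (n * (d - 2))) :
    monomial i.1 (1 : ℂ) ∉ jacobianIdeal (ff n d) := by
  intro h
  have h1 := coeff_ee_of_mem (by omega : 0 < d - 1) (sbs_mem_of_mem h)
  rw [sbs_Bm_monomial, coeff_map] at h1
  have h2 : (ee n (d - 1)).degree = i.1.degree := by
    rw [ee_degree, i.2]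
    congr 1
  have h3 := coeff_prod_pos i.1 (ee n (d - 1)) h2
  have h4 : ((coeff (ee n (d - 1)) (∏ k, lf n k ^ i.1 k) : ℕ) : ℂ) ≠ 0 := by
    exact_mod_cast h3.ne'
  exact h4 h1

/-- Some nondegenerate form has a nonzero `μ_i`. -/
theorem exists_mu_ne_zero (hd : 3 ≤ d) (i : Mon n (n * (d - 2))) :
    ∃ a : Mon n d → ℂ, Nondeg (frm a) ∧ ∃ c, IsMu (frm a) i.1 c ∧ c ≠ 0 := by
  refine ⟨fun m => coeff m.1 (ff n d), ?_⟩
  rw [frm_coeff _ ff_homogeneous]
  have hnd : Nondeg (ff n d) := ff_nondeg (by omega)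
  refine ⟨hnd, ?_⟩
  obtain ⟨μ, hμ⟩ := exists_soc (by omega) ff_homogeneous hnd
  refine ⟨μ (monomial i.1 1), (isMu_of_soc hμ i _).2 rfl, ?_⟩
  intro h0
  have h1 : IsMu (ff n d) i.1 0 := (isMu_of_soc hμ i _).2 h0.symm
  unfold IsMu at h1
  rw [C_0, zero_mul, sub_zero] at h1
  exact monomial_not_mem (by omega) i h1

/-- No exponent smaller than one works. -/
theorem one_le_of_polyPow (hn : 2 ≤ n) (hd : 3 ≤ d) (Δ : MvPolynomial (Mon n d) ℂ)
    (hΔ : IsDiscriminant n d Δ) (i : Mon n (n * (d - 2))) (k : ℤ) (hk : PolyPow n d Δ i.1 k) :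
    1 ≤ k := by
  by_contra hlt
  push Not at hlt
  obtain ⟨r, hr⟩ : ∃ r : ℕ, k = -(r : ℤ) := ⟨(-k).toNat, by omega⟩
  obtain ⟨P, hP⟩ := hk
  obtain ⟨a, ha, c, hc, hc0⟩ := exists_mu_ne_zero hd i
  apply hc0
  apply eq_zero_of_poly (by omega) i.1 (Δ ^ r * P) ?_ a ha c hc
  intro b hb e he
  rw [eval_mul, eval_pow, hP b hb e he, hr]
  have h0 : eval b Δ ≠ 0 := by
    intro h
    exact ((hΔ.eval_eq_zero_iff b).1 h) hb
  rw [zpow_neg, zpow_natCast]
  field_simp

end Pool.V11205.AExp
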